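import Mathlib
import Pool.Agent.H.MP_eb7acf_gt.A

open Set Topology

namespace Pool.Agent.Results.MP_eb7acf_gt.NoSuitable

theorem result : ∃ (G : Type) (_ : AddCommGroup G) (_ : TopologicalSpace G) (_ : LinearOrder G),
    IsTopologicalAddGroup G ∧ T2Space G ∧ OrderTopology G ∧
    (∀ x : G, ∃ U : (ℕ → ℕ) → Set G, (∀ α β, α ≤ β → U β ⊆ U α) ∧
      (𝓝 x).HasBasis (fun _ => True) U) ∧
    ¬ ∃ S : Set G, DiscreteTopology S ∧ IsClosed (S ∪ {0}) ∧
      Dense (AddSubgroup.closure S : Set G) := by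
  obtain ⟨G, _, _, _, h1, h2, h3, h4⟩ := Pool.Agent.H.MP_eb7acf_gt.main
  exact ⟨G, inferInstance, inferInstance, inferInstance, h2, inferInstance, h1, h3,
    fun ⟨S, s1, s2, s3⟩ => h4 S s1 (union_singleton ▸ s2) s3⟩

end Pool.Agent.Results.MP_eb7acf_gt.NoSuitable
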